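import Mathlib

/-!
# The fixed point in the closest ball (mean of an orbit in an `F_p`-space)

`D` is a finite group of order prime to `p` acting on the field `F`, `O` a `D`-stable subring,
`S` a `D`-stable additive subgroup, `z` a fixed element and `s0 ∈ S` such that `z - s0` divides
(in `O`) all `z - s`, `s ∈ S`... more precisely `(z - s0) / (z - s) ∈ O` for all `s ∈ S`
(`z - s0` has maximal value). Then the same holds for an element `s1 ∈ S` fixed by `D`.
-/

set_option autoImplicit false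

namespace Pool.Agent.TGh89

universe u v

variable {F : Type u} [Field F] {D : Type v} [Group D] [MulSemiringAction D F]

/-- All conjugates of `z - s0` are equal to `z - s0` up to units. -/
theorem smul_div_mem {O : Subring F} (hO : ∀ g : D, ∀ a ∈ O, g • a ∈ O) {S : AddSubgroup F}
    (hS : ∀ g : D, ∀ s ∈ S, g • s ∈ S) {z s0 : F} (hz : ∀ g : D, g • z = z) (hs0 : s0 ∈ S)
    (hne : z - s0 ≠ 0) (hmax : ∀ s ∈ S, (z - s0) / (z - s) ∈ O) (g : D) :
    (z - s0) / (z - g • s0) ∈ O ∧ (z - g • s0) / (z - s0) ∈ O := by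
  refine ⟨hmax _ (hS g s0 hs0), ?_⟩
  have h1 := hO g _ (hmax _ (hS g⁻¹ s0 hs0))
  have h2 : g • ((z - s0) / (z - g⁻¹ • s0)) = (z - g • s0) / (z - s0) := by
    rw [div_eq_mul_inv, smul_mul', smul_inv'', smul_sub, smul_sub, hz, smul_inv_smul,
      div_eq_mul_inv]
  rwa [h2] at h1

/-- The fixed point. -/
theorem exists_fixed [Finite D] (p : ℕ) [CharP F p] (hp : p.Coprime (Nat.card D))
    {O : Subring F} (hO : ∀ g : D, ∀ a ∈ O, g • a ∈ O) {S : AddSubgroup F}
    (hS : ∀ g : D, ∀ s ∈ S, g • s ∈ S) {z s0 : F} (hz : ∀ g : D, g • z = z) (hs0 : s0 ∈ S)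
    (hne : z - s0 ≠ 0) (hmax : ∀ s ∈ S, (z - s0) / (z - s) ∈ O) :
    ∃ s1 ∈ S, (∀ g : D, g • s1 = s1) ∧ (z - s1) / (z - s0) ∈ O ∧ (z - s0) / (z - s1) ∈ O := by
  classical
  haveI := Fintype.ofFinite D
  obtain ⟨m, hm⟩ : ∃ m : ℕ, ((m * Nat.card D : ℕ) : F) = 1 := by
    rcases Nat.eq_zero_or_pos p with rfl | hp0
    · rw [Nat.coprime_zero_left] at hp
      exact ⟨1, by rw [hp]; simp⟩
    · have h1p : 1 < p := by
        rcases Nat.lt_or_ge 1 p with h | h
        · exact h
        · have : p = 1 := by omega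
          subst this
          exact absurd rfl (CharP.ringChar_ne_one (R := F) ∘ fun h => (CharP.eq F (ringChar.charP F) ‹CharP F 1›).trans h)
      obtain ⟨m, -, hm⟩ := Nat.exists_mul_mod_eq_one_of_coprime hp.symm h1p
      refine ⟨m, ?_⟩
      rw [mul_comm, CharP.cast_eq_mod F p, hm, Nat.cast_one]
  have hsum : ∑ g : D, (g • s0 - s0) = ∑ g : D, g • s0 - Nat.card D * s0 := by
    rw [Finset.sum_sub_distrib, Finset.sum_const, Finset.card_univ, Nat.card_eq_fintype_card,
      nsmul_eq_mul]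
  have hdiff : (m • ∑ g : D, g • s0) - s0 = (m : F) * ∑ g : D, (g • s0 - s0) := by
    rw [hsum, mul_sub, ← mul_assoc, ← Nat.cast_mul, hm, one_mul, nsmul_eq_mul]
  have hterm : ∀ g : D, (g • s0 - s0) / (z - s0) ∈ O := by
    intro g
    have h1 := (smul_div_mem hO hS hz hs0 hne hmax g).2
    have h2 : (g • s0 - s0) / (z - s0) = 1 - (z - g • s0) / (z - s0) := by
      field_simp; ring
    rw [h2]
    exact O.sub_mem O.one_mem h1
  have hmem : (m • ∑ g : D, g • s0) ∈ S :=
    S.nsmul_mem (S.sum_mem fun g _ => hS g s0 hs0) m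
  refine ⟨m • ∑ g : D, g • s0, hmem, fun g => ?_, ?_, hmax _ hmem⟩
  · rw [smul_comm, Finset.smul_sum]
    congr 1
    refine Fintype.sum_equiv (Equiv.mulLeft g) _ _ fun g' => ?_
    simp [mul_smul]
  · have h3 : (z - m • ∑ g : D, g • s0) / (z - s0) =
        1 - (m : F) * ∑ g : D, (g • s0 - s0) / (z - s0) := by
      have : z - m • ∑ g : D, g • s0 = (z - s0) - ((m • ∑ g : D, g • s0) - s0) := by ring
      rw [this, hdiff, sub_div, div_self hne, ← Finset.sum_div, mul_div_assoc]
    rw [h3]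
    refine O.sub_mem O.one_mem (O.mul_mem (natCast_mem O m) (O.sum_mem fun g _ => hterm g))

end Pool.Agent.TGh89
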