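import Pool.Agent.Lib.TGE_h70.Chart

/-!
# Finite groups acting on a field with a local ring: residues, traces, descent of monomials

`G` is a finite group acting on the field `F` over `k`, `O` is a local ring of `F` dominated by `V`
with residue field `k`; `dec G O` is the stabiliser of `O`; its order is prime to the
characteristic.
-/

set_option autoImplicit false

namespace Pool.Agent.TGh89

open Pool.Agent.LU2 Pool.Agent.TGE

universe u v

variable {k F : Type u} [Field k] [Field F] [Algebra k F]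
variable {G : Type v} [Group G] [MulSemiringAction G F]

/-- The stabiliser of `O`. -/
def dec (G : Type v) [Group G] [MulSemiringAction G F] (O : Subalgebra k F) : Subgroup G where
  carrier := {g | ∀ a, g • a ∈ O ↔ a ∈ O}
  one_mem' := fun a => by rw [one_smul]
  mul_mem' := fun {g h} hg hh a => by rw [mul_smul]; exact (hg (h • a)).trans (hh a)
  inv_mem' := fun {g} hg a => by
    have := hg (g⁻¹ • a)
    rw [smul_inv_smul] at this
    exact this.symm

theorem mem_dec {O : Subalgebra k F} {g : G} : g ∈ dec G O ↔ ∀ a, g • a ∈ O ↔ a ∈ O := Iff.rfl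

theorem smul_dec {O : Subalgebra k F} {g : G} (hg : g ∈ dec G O) {a : F} (ha : a ∈ O) :
    g • a ∈ O := (hg a).2 ha

/-- The invariants in `O`. -/
def fixO (G : Type v) [Group G] [MulSemiringAction G F] [SMulCommClass G k F]
    (O : Subalgebra k F) : Subalgebra k F where
  carrier := {a | a ∈ O ∧ ∀ g : G, g • a = a}
  mul_mem' := fun {a b} ha hb => ⟨O.mul_mem ha.1 hb.1, fun g => by rw [smul_mul', ha.2, hb.2]⟩
  add_mem' := fun {a b} ha hb => ⟨O.add_mem ha.1 hb.1, fun g => by rw [smul_add, ha.2, hb.2]⟩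
  algebraMap_mem' := fun c => ⟨O.algebraMap_mem c, fun g => smul_algebraMap g c⟩

theorem mem_fixO [SMulCommClass G k F] {O : Subalgebra k F} {a : F} :
    a ∈ fixO G O ↔ a ∈ O ∧ ∀ g : G, g • a = a := Iff.rfl

/-- The elements all of whose conjugates are in `O`. -/
def allO (G : Type v) [Group G] [MulSemiringAction G F] [SMulCommClass G k F]
    (O : Subalgebra k F) : Subalgebra k F where
  carrier := {a | ∀ g : G, g • a ∈ O}
  mul_mem' := fun {a b} ha hb g => by rw [smul_mul']; exact O.mul_mem (ha g) (hb g)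
  add_mem' := fun {a b} ha hb g => by rw [smul_add]; exact O.add_mem (ha g) (hb g)
  algebraMap_mem' := fun c g => by rw [smul_algebraMap]; exact O.algebraMap_mem c

theorem mem_allO [SMulCommClass G k F] {O : Subalgebra k F} {a : F} :
    a ∈ allO G O ↔ ∀ g : G, g • a ∈ O := Iff.rfl

theorem smul_allO [SMulCommClass G k F] {O : Subalgebra k F} {a : F} (ha : a ∈ allO G O)
    (g : G) : g • a ∈ allO G O := fun h => by rw [← mul_smul]; exact ha _

theorem allO_le [SMulCommClass G k F] {O : Subalgebra k F} : allO G O ≤ O := fun a ha => by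
  have := ha 1
  rwa [one_smul] at this

theorem sum_allO [SMulCommClass G k F] [Fintype G] {O : Subalgebra k F} {a : F}
    (ha : a ∈ allO G O) : ∑ g : G, g • a ∈ fixO G O := by
  refine ⟨O.sum_mem fun g _ => ha g, fun h => ?_⟩
  rw [Finset.smul_sum]
  refine (Fintype.sum_equiv (Equiv.mulLeft h) _ _ fun g => ?_)
  simp [mul_smul]

theorem smul_sum_eq [Fintype G] (a : F) (h : G) : h • ∑ g : G, g • a = ∑ g : G, g • a := by
  rw [Finset.smul_sum]
  refine (Fintype.sum_equiv (Equiv.mulLeft h) _ _ fun g => ?_)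
  simp [mul_smul]

section Dom

variable [SMulCommClass G k F] {V : ValuationSubring F} {O : Subalgebra k F}

theorem val_le (hO : Dom V O) {a : F} (ha : a ∈ O) : V.valuation a ≤ 1 :=
  (V.valuation_le_one_iff a).2 (hO.le a ha)

theorem val_algebraMap (hO : Dom V O) {c : k} (hc : c ≠ 0) :
    V.valuation (algebraMap k F c) = 1 := by
  apply le_antisymm (val_le hO (O.algebraMap_mem c))
  have h := val_le hO (O.algebraMap_mem c⁻¹)
  rw [map_inv₀, map_inv₀] at h
  have h0 : V.valuation (algebraMap k F c) ≠ 0 := by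
    rw [Valuation.ne_zero_iff]; simpa using hc
  exact (inv_le_one₀ (zero_lt_iff.2 h0)).1 h

theorem algebraMap_val_lt (hO : Dom V O) {c : k} (h : V.valuation (algebraMap k F c) < 1) :
    c = 0 := by
  by_contra hc
  rw [val_algebraMap hO hc] at h
  exact lt_irrefl _ h

theorem val_smul_one (hO : Dom V O) {g : G} (hg : g ∈ dec G O) {a : F} (ha : a ∈ O)
    (h1 : V.valuation a = 1) : V.valuation (g • a) = 1 := by
  have ha0 : a ≠ 0 := by rintro rfl; simp at h1
  have h2 := val_le hO (smul_dec hg ha)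
  have h3 := val_le hO (smul_dec hg (hO.inv a ha h1))
  apply le_antisymm h2
  have h4 : g • a * g • a⁻¹ = 1 := by rw [← smul_mul', mul_inv_cancel₀ ha0, smul_one]
  have h5 := congrArg V.valuation h4
  rw [map_mul, map_one] at h5
  calc (1 : V.ValueGroup) = V.valuation (g • a) * V.valuation (g • a⁻¹) := h5.symm
    _ ≤ V.valuation (g • a) * 1 := mul_le_mul_right h3 _
    _ = V.valuation (g • a) := mul_one _

theorem val_smul_lt (hO : Dom V O) {g : G} (hg : g ∈ dec G O) {a : F} (ha : a ∈ O)
    (h1 : V.valuation a < 1) : V.valuation (g • a) < 1 := by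
  refine lt_of_le_of_ne (val_le hO (smul_dec hg ha)) fun h => ?_
  have h2 := val_smul_one hO ((dec G O).inv_mem hg) (smul_dec hg ha) h
  rw [inv_smul_smul] at h2
  exact h1.ne h2

theorem val_smul_sub (hO : Dom V O) {g : G} (hg : g ∈ dec G O) {a : F} (ha : a ∈ O) {c : k}
    (h1 : V.valuation (a - algebraMap k F c) < 1) :
    V.valuation (g • a - algebraMap k F c) < 1 := by
  have h := val_smul_lt hO hg (O.sub_mem ha (O.algebraMap_mem c)) h1
  rwa [smul_sub, smul_algebraMap] at h

theorem val_one_of_sub (V : ValuationSubring F) {a : F} (h : V.valuation (a - 1) < 1) :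
    V.valuation a = 1 := by
  have : a = 1 + (a - 1) := by ring
  rw [this]
  exact Valuation.map_one_add_of_lt _ h

theorem val_mul_sub {a b : F} (ha : V.valuation (a - 1) < 1) (hb : V.valuation (b - 1) < 1) :
    V.valuation (a * b - 1) < 1 := by
  have e : a * b - 1 = (a - 1) * b + (b - 1) := by ring
  rw [e]
  refine Valuation.map_add_lt _ ?_ hb
  rw [map_mul, val_one_of_sub V hb, mul_one]
  exact ha

/-- Normalise a unit. -/
theorem exists_norm (hO : Dom V O) (hres : ∀ a ∈ O, ∃ c : k, V.valuation (a - algebraMap k F c) < 1)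
    {a : F} (ha : a ∈ O) (h1 : V.valuation a = 1) :
    ∃ c : k, c ≠ 0 ∧ V.valuation (algebraMap k F c * a - 1) < 1 := by
  obtain ⟨c, hc⟩ := hres a ha
  have hc0 : c ≠ 0 := by
    rintro rfl
    rw [map_zero, sub_zero, h1] at hc
    exact lt_irrefl _ hc
  refine ⟨c⁻¹, inv_ne_zero hc0, ?_⟩
  have e : algebraMap k F c⁻¹ * a - 1 = algebraMap k F c⁻¹ * (a - algebraMap k F c) := by
    rw [mul_sub, ← map_mul, inv_mul_cancel₀ hc0, map_one]
  rw [e, map_mul, val_algebraMap hO (inv_ne_zero hc0), one_mul]
  exact hc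

/-- The semilocal input. -/
structure Semi (G : Type v) [Group G] [MulSemiringAction G F] [SMulCommClass G k F]
    (V : ValuationSubring F) (O : Subalgebra k F) : Prop where
  dom : Dom V O
  res : ∀ a ∈ O, ∃ c : k, V.valuation (a - algebraMap k F c) < 1
  den : ∀ x ∈ O, ∃ b ∈ allO G O, V.valuation b = 1 ∧ b * x ∈ allO G O
  sep : ∃ e ∈ allO G O, V.valuation (e - 1) < 1 ∧ ∀ g : G, g ∉ dec G O → V.valuation (g • e) < 1

/-- Denominators close to `1`. -/
theorem Semi.den' (h : Semi G V O) {x : F} (hx : x ∈ O) :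
    ∃ b ∈ allO G O, V.valuation (b - 1) < 1 ∧ b * x ∈ allO G O := by
  obtain ⟨b, hb, hv, hbx⟩ := h.den x hx
  obtain ⟨c, hc0, hc⟩ := exists_norm h.dom h.res (allO_le hb) hv
  refine ⟨algebraMap k F c * b, (allO G O).mul_mem ((allO G O).algebraMap_mem c) hb, hc, ?_⟩
  rw [mul_assoc]
  exact (allO G O).mul_mem ((allO G O).algebraMap_mem c) hbx

theorem sum_indicator [Fintype G] (H : Subgroup G) [DecidablePred (· ∈ H)] :
    (∑ g : G, if g ∈ H then (1 : F) else 0) = (Nat.card H : F) := by
  rw [Finset.sum_boole, Nat.card_eq_fintype_card]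
  congr 1
  rw [Fintype.card_subtype]

/-- The trace of an element which is `1` at the centre and `0` at the other conjugates. -/
theorem trace_val [Fintype G] (h : Semi G V O) {f : G → F} 
    (h1 : ∀ g ∈ dec G O, V.valuation (f g - 1) < 1)
    (h2 : ∀ g, g ∉ dec G O → V.valuation (f g) < 1) :
    V.valuation (∑ g : G, f g - (Nat.card (dec G O) : F)) < 1 := by
  classical
  rw [← sum_indicator (dec G O), ← Finset.sum_sub_distrib]
  refine Valuation.map_sum_lt _ one_ne_zero fun g _ => ?_
  split_ifs with hg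
  · exact h1 g hg
  · rw [sub_zero]; exact h2 g hg

theorem card_val (hO : Dom V O) (hc : (Nat.card (dec G O) : k) ≠ 0) :
    V.valuation (Nat.card (dec G O) : F) = 1 := by
  have : (Nat.card (dec G O) : F) = algebraMap k F (Nat.card (dec G O) : k) := by simp
  rw [this]
  exact val_algebraMap hO hc

theorem trace_val_one [Fintype G] (h : Semi G V O) (hc : (Nat.card (dec G O) : k) ≠ 0)
    {f : G → F} (h1 : ∀ g ∈ dec G O, V.valuation (f g - 1) < 1)
    (h2 : ∀ g, g ∉ dec G O → V.valuation (f g) < 1) :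
    V.valuation (∑ g : G, f g) = 1 := by
  have h3 := trace_val h h1 h2
  have h4 := card_val h.dom hc
  have e : ∑ g : G, f g = (Nat.card (dec G O) : F) + (∑ g : G, f g - (Nat.card (dec G O) : F)) := by
    ring
  rw [e, Valuation.map_add_eq_of_lt_left _ (by rw [h4]; exact h3), h4]

theorem trace_mul [Fintype G] (h : Semi G V O) (hc : (Nat.card (dec G O) : k) ≠ 0)
    {b e : F} (hb : b ∈ allO G O) (hb1 : V.valuation (b - 1) < 1) (he : e ∈ allO G O)
    (he1 : V.valuation (e - 1) < 1)
    (hsep : ∀ g : G, g ∉ dec G O → V.valuation (g • e) < 1) :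
    V.valuation (∑ g : G, g • (b * e)) = 1 := by
  refine trace_val_one h hc (fun g hg => ?_) fun g hg => ?_
  · have h1 := val_mul_sub hb1 he1
    have h2 := val_smul_sub h.dom hg (c := 1) ((O.mul_mem (allO_le hb) (allO_le he)))
      (by rw [map_one]; exact h1)
    rwa [map_one] at h2
  · rw [smul_mul', map_mul]
    exact (mul_le_of_le_one_left zero_le (val_le h.dom (hb g))).trans_lt (hsep g hg)

/-- Ideals of the ring of invariants are contracted. -/
theorem contract [Fintype G] (h : Semi G V O) (hc : (Nat.card (dec G O) : k) ≠ 0) {E : Set F}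
    (hE : ∀ a ∈ E, ∀ g : G, g • a = a) {x : F} (hx : ∀ g : G, g • x = x)
    (hxE : x ∈ Submodule.span O E) : x ∈ Submodule.span (fixO G O) E := by
  have key : ∀ y ∈ Submodule.span O E, ∃ b ∈ allO G O, V.valuation (b - 1) < 1 ∧
      ∀ c ∈ allO G O, ∑ g : G, g • (c * b * y) ∈ Submodule.span (fixO G O) E := by
    intro y hy
    induction hy using Submodule.span_induction with
    | mem y hy =>
      refine ⟨1, (allO G O).one_mem, by simp, fun c hc => ?_⟩
      have e : ∑ g : G, g • (c * 1 * y) = (∑ g : G, g • c) * y := by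
        rw [Finset.sum_mul]
        refine Finset.sum_congr rfl fun g _ => ?_
        rw [mul_one, smul_mul', hE y hy g]
      rw [e]
      exact Submodule.smul_mem _ (⟨_, sum_allO hc⟩ : fixO G O) (Submodule.subset_span hy)
    | zero =>
      refine ⟨1, (allO G O).one_mem, by simp, fun c hc => ?_⟩
      simp
    | add y z _ _ hy hz =>
      obtain ⟨b, hb, hb1, hbc⟩ := hy
      obtain ⟨b', hb', hb1', hbc'⟩ := hz
      refine ⟨b * b', (allO G O).mul_mem hb hb', val_mul_sub hb1 hb1', fun c hc => ?_⟩
      have e : ∑ g : G, g • (c * (b * b') * (y + z)) =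
          ∑ g : G, g • (c * b' * b * y) + ∑ g : G, g • (c * b * b' * z) := by
        rw [← Finset.sum_add_distrib]
        refine Finset.sum_congr rfl fun g _ => ?_
        rw [← smul_add]; congr 1; ring
      rw [e]
      exact Submodule.add_mem _ (hbc _ ((allO G O).mul_mem hc hb'))
        (hbc' _ ((allO G O).mul_mem hc hb))
    | smul o y _ hy =>
      obtain ⟨b, hb, hb1, hbc⟩ := hy
      obtain ⟨b', hb', hb1', hbo⟩ := h.den' o.2
      refine ⟨b * b', (allO G O).mul_mem hb hb', val_mul_sub hb1 hb1', fun c hc => ?_⟩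
      have e : ∑ g : G, g • (c * (b * b') * (o • y)) =
          ∑ g : G, g • (c * (b' * (o : F)) * b * y) := by
        refine Finset.sum_congr rfl fun g _ => ?_
        congr 1
        rw [Algebra.smul_def]
        change c * (b * b') * ((o : F) * y) = _
        ring
      rw [e]
      exact hbc _ ((allO G O).mul_mem hc hbo)
  obtain ⟨b, hb, hb1, hbc⟩ := key x hxE
  obtain ⟨e, he, he1, hsep⟩ := h.sep
  have h1 := hbc e he
  have h2 := trace_mul h hc hb hb1 he he1 hsep
  have e1 : ∑ g : G, g • (e * b * x) = (∑ g : G, g • (b * e)) * x := by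
    rw [Finset.sum_mul]
    refine Finset.sum_congr rfl fun g _ => ?_
    rw [smul_mul', hx g, mul_comm e b]
  rw [e1] at h1
  have h3 := sum_allO ((allO G O).mul_mem hb he)
  have h0 : (∑ g : G, g • (b * e)) ≠ 0 := by
    intro h0; rw [h0] at h2; simp at h2
  have h4 : (∑ g : G, g • (b * e))⁻¹ ∈ fixO G O :=
    ⟨h.dom.inv _ h3.1 h2, fun g => by rw [smul_inv'', h3.2 g]⟩
  have h5 := Submodule.smul_mem _ (⟨_, h4⟩ : fixO G O) h1
  have e2 : (⟨_, h4⟩ : fixO G O) • ((∑ g : G, g • (b * e)) * x) = x := by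
    rw [Algebra.smul_def]
    change (∑ g : G, g • (b * e))⁻¹ * _ = _
    rw [← mul_assoc, inv_mul_cancel₀ h0, one_mul]
  rwa [e2] at h5

end Dom

end Pool.Agent.TGh89
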