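import Pool.Agent.Lib.TG_h89.Act

/-!
# Descent of monomials and characters of the decomposition group
-/

set_option autoImplicit false

namespace Pool.Agent.TGh89

open Pool.Agent.LU2 Pool.Agent.TGE

universe u v

variable {k F : Type u} [Field k] [Field F] [Algebra k F]
variable {G : Type v} [Group G] [MulSemiringAction G F] [SMulCommClass G k F]
variable {V : ValuationSubring F} {O : Subalgebra k F}

/-- `O` is closed under roots. -/
def RootCl (O : Subalgebra k F) : Prop := ∀ (x : F) (q : ℕ), 0 < q → x ^ q ∈ O → x ∈ O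

/-- A power of `m` is an invariant element times a unit of `O`. -/
def Good (G : Type v) [Group G] [MulSemiringAction G F] (V : ValuationSubring F)
    (O : Subalgebra k F) (m : F) : Prop :=
  ∃ q : ℕ, 0 < q ∧ ∃ h : F, (∀ g : G, g • h = h) ∧ ∃ u ∈ O, V.valuation u = 1 ∧ m ^ q = h * u

omit [SMulCommClass G k F] in
theorem Good.one : Good G V O (1 : F) :=
  ⟨1, one_pos, 1, fun g => smul_one g, 1, O.one_mem, map_one _, by ring⟩

omit [SMulCommClass G k F] in
theorem Good.mul {m m' : F} (h : Good G V O m) (h' : Good G V O m') : Good G V O (m * m') := by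
  obtain ⟨q, hq, a, ha, u, hu, hu1, e⟩ := h
  obtain ⟨q', hq', a', ha', u', hu', hu1', e'⟩ := h'
  refine ⟨q * q', Nat.mul_pos hq hq', a ^ q' * a' ^ q, fun g => ?_, u ^ q' * u' ^ q,
    O.mul_mem (O.pow_mem hu _) (O.pow_mem hu' _), by simp [hu1, hu1'], ?_⟩
  · rw [smul_mul', smul_pow', smul_pow', ha, ha']
  · calc (m * m') ^ (q * q') = (m ^ q) ^ q' * (m' ^ q') ^ q := by rw [mul_pow]; ring
      _ = _ := by rw [e, e']; ring

omit [SMulCommClass G k F] in
theorem Good.inv (hO : Dom V O) {m : F} (h : Good G V O m) : Good G V O m⁻¹ := by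
  obtain ⟨q, hq, a, ha, u, hu, hu1, e⟩ := h
  refine ⟨q, hq, a⁻¹, fun g => by rw [smul_inv'', ha], u⁻¹, hO.inv u hu hu1, by simp [hu1], ?_⟩
  rw [inv_pow, e, mul_inv]

omit [SMulCommClass G k F] in
theorem Good.unit {u : F} (hu : u ∈ O) (h1 : V.valuation u = 1) : Good G V O u :=
  ⟨1, one_pos, 1, fun g => smul_one g, u, hu, h1, by ring⟩

omit [SMulCommClass G k F] in
theorem Good.fixed {m : F} (h : ∀ g : G, g • m = m) : Good G V O m :=
  ⟨1, one_pos, m, h, 1, O.one_mem, map_one _, by ring⟩

/-- The conjugates of a good element have bounded poles. -/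
theorem Good.den (hs : Semi G V O) (hrc : RootCl O) {m : F} (hm0 : m ≠ 0) (h : Good G V O m) :
    ∃ b ∈ allO G O, V.valuation (b - 1) < 1 ∧ ∀ g : G, g • b * (g • m / m) ∈ O := by
  obtain ⟨q, hq, a, ha, u, hu, hu1, e⟩ := h
  obtain ⟨b, hb, hb1, hbu⟩ := hs.den' hu
  refine ⟨b, hb, hb1, fun g => hrc _ q hq ?_⟩
  have ha0 : a ≠ 0 := by
    rintro rfl
    rw [zero_mul] at e
    exact hm0 (pow_eq_zero_iff hq.ne' |>.1 e)
  have e2 : (g • b * (g • m / m)) ^ q = (g • b) ^ (q - 1) * g • (b * u) * u⁻¹ := by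
    have h1 : (g • m) ^ q = a * g • u := by rw [← smul_pow', e, smul_mul', ha]
    have h2 : (g • b) ^ q = (g • b) ^ (q - 1) * g • b := by
      rw [← pow_succ, Nat.sub_add_cancel hq]
    rw [mul_pow, div_pow, h1, e, h2, smul_mul']
    field_simp
  rw [e2]
  exact O.mul_mem (O.mul_mem (O.pow_mem (hb g) _) (hbu g)) (hs.dom.inv u hu hu1)

omit [SMulCommClass G k F] in
/-- The classes of good elements are fixed by the decomposition group. -/
theorem Good.smul_div (hO : Dom V O) (hrc : RootCl O) {m : F} (hm0 : m ≠ 0)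
    (h : Good G V O m) {g : G} (hg : g ∈ dec G O) :
    g • m / m ∈ O ∧ V.valuation (g • m / m) = 1 := by
  obtain ⟨q, hq, a, ha, u, hu, hu1, e⟩ := h
  have ha0 : a ≠ 0 := by
    rintro rfl
    rw [zero_mul] at e
    exact hm0 (pow_eq_zero_iff hq.ne' |>.1 e)
  have h1 : (g • m) ^ q = a * g • u := by rw [← smul_pow', e, smul_mul', ha]
  have h2 : (g • m / m) ^ q = g • u * u⁻¹ := by
    rw [div_pow, h1, e]; field_simp
  have h3 : V.valuation (g • u) = 1 := by
    have hle : ∀ x ∈ O, V.valuation x ≤ 1 := fun x hx => (V.valuation_le_one_iff x).2 (hO.le x hx)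
    have hu0 : u ≠ 0 := by rintro rfl; simp at hu1
    have h4 : g • u * g • u⁻¹ = 1 := by rw [← smul_mul', mul_inv_cancel₀ hu0, smul_one]
    have h5 := congrArg V.valuation h4
    rw [map_mul, map_one] at h5
    apply le_antisymm (hle _ (smul_dec hg hu))
    calc (1 : V.ValueGroup) = V.valuation (g • u) * V.valuation (g • u⁻¹) := h5.symm
      _ ≤ V.valuation (g • u) * 1 := mul_le_mul_right (hle _ (smul_dec hg (hO.inv u hu hu1))) _
      _ = V.valuation (g • u) := mul_one _
  have h4 : V.valuation (g • m / m) ^ q = 1 := by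
    rw [← map_pow, h2, map_mul, h3, map_inv₀, hu1, inv_one, mul_one]
  refine ⟨hrc _ q hq ?_, ?_⟩
  · rw [h2]
    exact O.mul_mem (smul_dec hg hu) (hO.inv u hu hu1)
  · exact (pow_eq_one_iff.1 h4).resolve_right hq.ne'

/-- Descent of monomials. -/
theorem descend [Fintype G] (hs : Semi G V O) (hc : (Nat.card (dec G O) : k) ≠ 0)
    (hrc : RootCl O) {m : F} (hm0 : m ≠ 0) (h : Good G V O m)
    (hchar : ∀ g ∈ dec G O, V.valuation (g • m / m - 1) < 1) :
    ∃ y : F, (∀ g : G, g • y = y) ∧ y / m ∈ O ∧ V.valuation (y / m - 1) < 1 := by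
  obtain ⟨b, hb, hb1, hbg⟩ := h.den hs hrc hm0
  obtain ⟨e, he, he1, hsep⟩ := hs.sep
  set N := Nat.card (dec G O) with hN
  have hNv := card_val hs.dom hc
  rw [← hN] at hNv
  have hN0 : (N : F) ≠ 0 := by intro h0; rw [h0] at hNv; simp at hNv
  refine ⟨(N : F)⁻¹ * ∑ g : G, g • (b * e * m), fun g => ?_, ?_⟩
  · rw [smul_mul', smul_sum_eq, smul_inv'']
    congr 2
    have : (N : F) = algebraMap k F (N : k) := by simp
    rw [this, smul_algebraMap]
  have e1 : ((N : F)⁻¹ * ∑ g : G, g • (b * e * m)) / m =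
      (N : F)⁻¹ * ∑ g : G, g • e * (g • b * (g • m / m)) := by
    rw [mul_div_assoc, Finset.sum_div]
    congr 1
    refine Finset.sum_congr rfl fun g _ => ?_
    rw [smul_mul', smul_mul']
    ring
  rw [e1]
  have hNO : (N : F)⁻¹ ∈ O := by
    have : (N : F) = algebraMap k F (N : k) := by simp
    rw [this, ← map_inv₀]
    exact O.algebraMap_mem _
  constructor
  · exact O.mul_mem hNO (O.sum_mem fun g _ => O.mul_mem (he g) (hbg g))
  · have h3 := trace_val (f := fun g => g • e * (g • b * (g • m / m))) hs (fun g hg => ?_)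
      fun g hg => ?_
    · have e2 : (N : F)⁻¹ * ∑ g : G, g • e * (g • b * (g • m / m)) - 1 =
          (N : F)⁻¹ * (∑ g : G, g • e * (g • b * (g • m / m)) - N) := by
        rw [mul_sub, inv_mul_cancel₀ hN0]
      rw [e2, map_mul, map_inv₀, hNv, inv_one, one_mul]
      exact h3
    · refine val_mul_sub ?_ (val_mul_sub ?_ (hchar g hg))
      · have := val_smul_sub hs.dom hg (c := 1) (allO_le he) (by rwa [map_one])
        rwa [map_one] at this
      · have := val_smul_sub hs.dom hg (c := 1) (allO_le hb) (by rwa [map_one])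
        rwa [map_one] at this
    · simp only [map_mul]
      rw [← map_mul]
      exact (mul_le_of_le_one_right zero_le (val_le hs.dom (hbg g))).trans_lt (hsep g hg)

/-- Close invariant elements: an element of the maximal ideal fixed by the decomposition group is
congruent to an invariant element modulo the square of the maximal ideal. -/
theorem approx [Fintype G] (hs : Semi G V O) (hc : (Nat.card (dec G O) : k) ≠ 0)
    {t : F} (ht : t ∈ O) (ht1 : V.valuation t < 1) (hfix : ∀ g ∈ dec G O, g • t = t) :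
    ∃ y ∈ fixO G O, V.valuation y < 1 ∧
      y - t ∈ Submodule.span O {x | ∃ a ∈ O, ∃ b ∈ O, V.valuation a < 1 ∧ V.valuation b < 1 ∧
        x = a * b} := by
  classical
  obtain ⟨b, hb, hb1, hbt⟩ := hs.den' ht
  obtain ⟨e, he, he1, hsep⟩ := hs.sep
  set N := Nat.card (dec G O) with hN
  have hNv := card_val hs.dom hc
  rw [← hN] at hNv
  have hN0 : (N : F) ≠ 0 := by intro h0; rw [h0] at hNv; simp at hNv
  have hNO : (N : F)⁻¹ ∈ O := by
    have : (N : F) = algebraMap k F (N : k) := by simp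
    rw [this, ← map_inv₀]
    exact O.algebraMap_mem _
  set J := Submodule.span O {x | ∃ a ∈ O, ∃ b ∈ O, V.valuation a < 1 ∧ V.valuation b < 1 ∧
        x = a * b} with hJ
  have hc' : e * e * (b * t) ∈ allO G O := (allO G O).mul_mem ((allO G O).mul_mem he he) hbt
  have key : (∑ g : G, g • (e * e * (b * t))) - N * t ∈ J := by
    have e1 : (∑ g : G, g • (e * e * (b * t))) - N * t =
        ∑ g : G, (g • (e * e * (b * t)) - (if g ∈ dec G O then (1 : F) else 0) * t) := by
      rw [Finset.sum_sub_distrib, ← Finset.sum_mul, sum_indicator]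
    rw [e1]
    refine Submodule.sum_mem _ fun g _ => ?_
    split_ifs with hg
    · rw [one_mul]
      have e2 : g • (e * e * (b * t)) - t = (g • (e * e * b) - 1) * t := by
        rw [smul_mul', smul_mul', smul_mul', smul_mul', smul_mul', hfix g hg]; ring
      rw [e2]
      have h1 := val_smul_sub hs.dom hg (c := 1) (a := e * e * b)
        (O.mul_mem (O.mul_mem (allO_le he) (allO_le he)) (allO_le hb))
        (by rw [map_one]; exact val_mul_sub (val_mul_sub he1 he1) hb1)
      rw [map_one] at h1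
      exact Submodule.subset_span ⟨_, O.sub_mem (((allO G O).mul_mem ((allO G O).mul_mem he he) hb) g)
        O.one_mem, t, ht, h1, ht1, rfl⟩
    · rw [zero_mul, sub_zero, smul_mul', smul_mul']
      have : g • e * g • e * g • (b * t) = (⟨g • (b * t), hbt g⟩ : O) • (g • e * g • e) := by
        rw [Algebra.smul_def]
        change _ = g • (b * t) * _
        ring
      rw [this]
      exact Submodule.smul_mem _ _ (Submodule.subset_span ⟨_, he g, _, he g, hsep g hg, hsep g hg, rfl⟩)
  have hy : (N : F)⁻¹ * (∑ g : G, g • (e * e * (b * t))) ∈ fixO G O := by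
    refine (fixO G O).mul_mem ⟨hNO, fun g => ?_⟩ (sum_allO hc')
    have : (N : F) = algebraMap k F (N : k) := by simp
    rw [smul_inv'', this, smul_algebraMap]
  have hd : (N : F)⁻¹ * (∑ g : G, g • (e * e * (b * t))) - t ∈ J := by
    have e3 : (N : F)⁻¹ * (∑ g : G, g • (e * e * (b * t))) - t =
        (⟨(N : F)⁻¹, hNO⟩ : O) • ((∑ g : G, g • (e * e * (b * t))) - N * t) := by
      rw [Algebra.smul_def]
      change _ = (N : F)⁻¹ * _
      rw [mul_sub, ← mul_assoc, ← mul_assoc, inv_mul_cancel₀ hN0, one_mul]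
    rw [e3]
    exact Submodule.smul_mem _ _ key
  have hJ1 : ∀ x ∈ J, V.valuation x < 1 := by
    intro x hx
    induction hx using Submodule.span_induction with
    | mem x hx =>
      obtain ⟨a, ha, b, hb, ha1, hb1, rfl⟩ := hx
      rw [map_mul]
      exact (mul_le_of_le_one_right zero_le (val_le hs.dom hb)).trans_lt ha1
    | zero => simp
    | add x y _ _ hx hy => exact Valuation.map_add_lt _ hx hy
    | smul o x _ hx =>
      rw [Algebra.smul_def, map_mul]
      exact (mul_le_of_le_one_left zero_le (val_le hs.dom o.2)).trans_lt hx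
  refine ⟨_, hy, ?_, hd⟩
  have := Valuation.map_add_lt _ (hJ1 _ hd) ht1
  rwa [sub_add_cancel] at this

/-- The character of a good element. -/
theorem exists_char (hs : Semi G V O) (hrc : RootCl O) {m : F} (hm0 : m ≠ 0)
    (h : Good G V O m) :
    ∃ χ : G → k, (∀ g ∈ dec G O, χ g ≠ 0 ∧
      V.valuation (g • m / m - algebraMap k F (χ g)) < 1) ∧
      ∀ g ∈ dec G O, ∀ h ∈ dec G O, χ (g * h) = χ g * χ h := by
  have h1 : ∀ g : G, ∃ c : k, g ∈ dec G O → c ≠ 0 ∧
      V.valuation (g • m / m - algebraMap k F c) < 1 := by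
    intro g
    by_cases hg : g ∈ dec G O
    · obtain ⟨ho, hv⟩ := h.smul_div hs.dom hrc hm0 hg
      obtain ⟨c, hc⟩ := hs.res _ ho
      refine ⟨c, fun _ => ⟨?_, hc⟩⟩
      rintro rfl
      rw [map_zero, sub_zero, hv] at hc
      exact lt_irrefl _ hc
    · exact ⟨0, fun h => absurd h hg⟩
  choose χ hχ using h1
  refine ⟨χ, hχ, fun g hg h' hh => ?_⟩
  have e1 := (hχ _ ((dec G O).mul_mem hg hh)).2
  have e2 := (hχ g hg).2
  have e3 := (hχ h' hh).2
  have e4 := val_smul_sub hs.dom hg (h.smul_div hs.dom hrc hm0 hh).1 e3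
  have hgm0 : g • m ≠ 0 := (smul_ne_zero_iff_ne g).2 hm0
  have e5 : (g * h') • m / m = (g • (h' • m / m)) * (g • m / m) := by
    rw [mul_smul, div_eq_mul_inv (h' • m) m, smul_mul', smul_inv'']
    field_simp
  have e6 : V.valuation ((g * h') • m / m - algebraMap k F (χ g * χ h')) < 1 := by
    have : (g * h') • m / m - algebraMap k F (χ g * χ h') =
        (g • (h' • m / m) - algebraMap k F (χ h')) * (g • m / m) +
          algebraMap k F (χ h') * (g • m / m - algebraMap k F (χ g)) := by
      rw [e5, map_mul]; ring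
    rw [this]
    refine Valuation.map_add_lt _ ?_ ?_
    · rw [map_mul, (h.smul_div hs.dom hrc hm0 hg).2, mul_one]; exact e4
    · rw [map_mul, val_algebraMap hs.dom (hχ h' hh).1, one_mul]; exact e2
  have e7 := Valuation.map_sub_lt _ e6 e1
  have e8 : (g * h') • m / m - algebraMap k F (χ g * χ h') -
      ((g * h') • m / m - algebraMap k F (χ (g * h'))) =
      algebraMap k F (χ (g * h') - χ g * χ h') := by rw [map_sub]; ring
  rw [e8] at e7
  exact sub_eq_zero.1 (algebraMap_val_lt hs.dom e7)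

/-- Eigen representatives. -/
theorem exists_eigen [Fintype G] (hs : Semi G V O) (hc : (Nat.card (dec G O) : k) ≠ 0)
    (hrc : RootCl O) {m : F} (hm0 : m ≠ 0) (h : Good G V O m) :
    ∃ m' : F, m' / m ∈ O ∧ V.valuation (m' / m - 1) < 1 ∧
      ∃ χ : G → k, ∀ g ∈ dec G O, χ g ≠ 0 ∧ g • m' = algebraMap k F (χ g) * m' := by
  classical
  obtain ⟨χ, hχ, hmul⟩ := exists_char hs hrc hm0 h
  set N := Nat.card (dec G O) with hN
  have hNv := card_val hs.dom hc
  rw [← hN] at hNv
  have hN0 : (N : F) ≠ 0 := by intro h0; rw [h0] at hNv; simp at hNv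
  have hNO : (N : F)⁻¹ ∈ O := by
    have : (N : F) = algebraMap k F (N : k) := by simp
    rw [this, ← map_inv₀]
    exact O.algebraMap_mem _
  set f : G → F := fun g => if g ∈ dec G O then algebraMap k F (χ g)⁻¹ * g • m else 0 with hf
  have e1 : ((N : F)⁻¹ * ∑ g : G, f g) / m =
      (N : F)⁻¹ * ∑ g : G, (f g / m) := by
    rw [mul_div_assoc, Finset.sum_div]
  refine ⟨(N : F)⁻¹ * ∑ g : G, f g, ?_, ?_, χ, fun g hg => ⟨(hχ g hg).1, ?_⟩⟩
  · rw [e1]
    refine O.mul_mem hNO (O.sum_mem fun g _ => ?_)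
    simp only [hf]
    split_ifs with hg
    · rw [mul_div_assoc]
      exact O.mul_mem (O.algebraMap_mem _) (h.smul_div hs.dom hrc hm0 hg).1
    · rw [zero_div]; exact O.zero_mem
  · rw [e1]
    have h3 := trace_val (f := fun g => f g / m) hs (fun g hg => ?_) fun g hg => ?_
    · have e2 : (N : F)⁻¹ * ∑ g : G, (f g / m) - 1 =
          (N : F)⁻¹ * (∑ g : G, (f g / m) - N) := by
        rw [mul_sub, inv_mul_cancel₀ hN0]
      rw [e2, map_mul, map_inv₀, hNv, inv_one, one_mul]
      exact h3
    · simp only [hf, if_pos hg]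
      obtain ⟨hc0, hcv⟩ := hχ g hg
      have : algebraMap k F (χ g)⁻¹ * g • m / m - 1 =
          algebraMap k F (χ g)⁻¹ * (g • m / m - algebraMap k F (χ g)) := by
        rw [mul_sub, ← map_mul, inv_mul_cancel₀ hc0, map_one]; ring
      rw [this, map_mul, val_algebraMap hs.dom (inv_ne_zero hc0), one_mul]
      exact hcv
    · simp only [hf, if_neg hg]; simp
  · have hNfix : g • (N : F)⁻¹ = (N : F)⁻¹ := by
      have : (N : F) = algebraMap k F (N : k) := by simp
      rw [smul_inv'', this, smul_algebraMap]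
    rw [smul_mul', hNfix, Finset.smul_sum, mul_left_comm]
    congr 1
    rw [Finset.mul_sum]
    refine Fintype.sum_equiv (Equiv.mulLeft g) _ _ fun g' => ?_
    simp only [hf, Equiv.coe_mulLeft]
    by_cases hg' : g' ∈ dec G O
    · rw [if_pos hg', if_pos ((dec G O).mul_mem hg hg'), hmul g hg g' hg', smul_mul',
        smul_algebraMap, mul_smul, mul_inv, map_mul, ← mul_assoc, ← mul_assoc]
      congr 2
      rw [← map_mul, mul_inv_cancel₀ (hχ g hg).1, map_one, one_mul]
    · rw [if_neg hg', if_neg (fun h => hg' (((dec G O).mul_mem_cancel_left hg).1 h)), smul_zero,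
        mul_zero]

end Pool.Agent.TGh89
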