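import Pool.Agent.Lib.TG_h89.Desc

/-!
# Generation of the maximal ideal of the ring of invariants

If the maximal ideal of `O` is generated by good elements (monomials) and elements fixed by the
decomposition group, then the maximal ideal of the ring of invariants is generated by invariant
monomials and invariant elements close to the given ones.
-/

set_option autoImplicit false

namespace Pool.Agent.TGh89

open Pool.Agent.LU2 Pool.Agent.TGE

universe u v

variable {k F : Type u} [Field k] [Field F] [Algebra k F]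
variable {G : Type v} [Group G] [MulSemiringAction G F] [SMulCommClass G k F]
variable {V : ValuationSubring F} {O : Subalgebra k F}

/-- The maximal ideal of `O`. -/
def mx (V : ValuationSubring F) (O : Subalgebra k F) (hO : Dom V O) : Ideal O where
  carrier := {a | V.valuation (a : F) < 1}
  add_mem' := fun {a b} ha hb => by
    change V.valuation ((a : F) + (b : F)) < 1
    exact Valuation.map_add_lt _ ha hb
  zero_mem' := by simp
  smul_mem' := fun c {a} ha => by
    change V.valuation ((c : F) * (a : F)) < 1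
    rw [map_mul]
    exact (mul_le_of_le_one_left zero_le ((V.valuation_le_one_iff _).2 (hO.le c c.2))).trans_lt ha

theorem mem_mx {hO : Dom V O} {a : O} : a ∈ mx V O hO ↔ V.valuation (a : F) < 1 := by
  change (a : O) ∈ {a : O | V.valuation (a : F) < 1} ↔ _
  rfl

theorem isUnit_of_val (hO : Dom V O) {a : O} (h : V.valuation (a : F) = 1) : IsUnit a := by
  have h0 : (a : F) ≠ 0 := by intro h0; rw [h0] at h; simp at h
  exact IsUnit.of_mul_eq_one ⟨(a : F)⁻¹, hO.inv _ a.2 h⟩ (Subtype.ext (mul_inv_cancel₀ h0))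

theorem mx_le_jac (hO : Dom V O) : mx V O hO ≤ Ideal.jacobson ⊥ := by
  intro a ha
  rw [Ideal.mem_jacobson_bot]
  intro y
  apply isUnit_of_val hO
  have h1 : V.valuation ((a * y : O) : F) < 1 := mem_mx.1 ((mx V O hO).mul_mem_right y ha)
  have : ((a * y + 1 : O) : F) = 1 + ((a * y : O) : F) := by
    rw [Subalgebra.coe_add, Subalgebra.coe_one, add_comm]
  rw [this]
  exact Valuation.map_one_add_of_lt _ h1

/-- Membership in the span in `F` of a set of elements of `O`. -/
theorem mem_span_iff {E : Set F} (hE : ∀ a ∈ E, a ∈ O) {x : O} :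
    (x : F) ∈ Submodule.span O E ↔ x ∈ Ideal.span {a : O | (a : F) ∈ E} := by
  have h1 : E = (Algebra.linearMap O F) '' {a : O | (a : F) ∈ E} := by
    ext y
    constructor
    · intro hy
      exact ⟨⟨y, hE y hy⟩, hy, rfl⟩
    · rintro ⟨a, ha, rfl⟩
      exact ha
  have h2 : Submodule.span O E = Submodule.map (Algebra.linearMap O F)
      (Ideal.span {a : O | (a : F) ∈ E}) := by
    conv_lhs => rw [h1]
    rw [← Submodule.map_span]
  rw [h2, Submodule.mem_map]
  constructor
  · rintro ⟨y, hy, hyx⟩
    have : y = x := Subtype.ext hyx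
    rwa [← this]
  · intro h
    exact ⟨x, h, rfl⟩

/-- The average over the decomposition group. -/
noncomputable def avg (G : Type v) [Group G] [MulSemiringAction G F] [Finite G]
    (O : Subalgebra k F) (x : F) : F :=
  (Nat.card (dec G O) : F)⁻¹ * ∑ᶠ g : dec G O, (g : G) • x

section avg

variable [Finite G]

omit [SMulCommClass G k F] in
theorem avg_def [Fintype (dec G O)] (x : F) :
    avg G O x = (Nat.card (dec G O) : F)⁻¹ * ∑ g : dec G O, (g : G) • x := by
  unfold avg
  rw [finsum_eq_sum_of_fintype]

omit [SMulCommClass G k F] in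
theorem avg_add (x y : F) : avg G O (x + y) = avg G O x + avg G O y := by
  have := Fintype.ofFinite (dec G O)
  rw [avg_def, avg_def, avg_def, ← mul_add, ← Finset.sum_add_distrib]
  congr 1
  refine Finset.sum_congr rfl fun g _ => ?_
  rw [smul_add]

omit [SMulCommClass G k F] in
theorem avg_zero : avg (k := k) G O (0 : F) = 0 := by
  have := Fintype.ofFinite (dec G O)
  rw [avg_def]
  simp

theorem avg_smul (c : k) (x : F) : avg G O (algebraMap k F c * x) =
    algebraMap k F c * avg G O x := by
  have := Fintype.ofFinite (dec G O)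
  have h : ∑ g : dec G O, (g : G) • (algebraMap k F c * x) =
      algebraMap k F c * ∑ g : dec G O, (g : G) • x := by
    rw [Finset.mul_sum]
    exact Finset.sum_congr rfl fun g _ => by rw [smul_mul', smul_algebraMap]
  rw [avg_def, avg_def, h]
  ring

omit [Finite G] in
theorem card_ne (hO : Dom V O) (hc : (Nat.card (dec G O) : k) ≠ 0) :
    (Nat.card (dec G O) : F) ≠ 0 := by
  intro h
  have := card_val hO hc
  rw [h] at this
  simp at this

theorem avg_fixed (hO : Dom V O) (hc : (Nat.card (dec G O) : k) ≠ 0) {x : F}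
    (hx : ∀ g ∈ dec G O, g • x = x) : avg G O x = x := by
  have := Fintype.ofFinite (dec G O)
  rw [avg_def]
  have : (∑ g : dec G O, (g : G) • x) = (Nat.card (dec G O) : F) * x := by
    rw [Finset.sum_congr rfl fun (g : dec G O) _ => hx g g.2, Finset.sum_const, Finset.card_univ,
      Nat.card_eq_fintype_card, nsmul_eq_mul]
  rw [this, ← mul_assoc, inv_mul_cancel₀ (card_ne hO hc), one_mul]

theorem smul_avg (x : F) {g : G} (hg : g ∈ dec G O) : g • avg G O x = avg G O x := by
  have := Fintype.ofFinite (dec G O)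
  rw [avg_def]
  have h1 : g • ((Nat.card (dec G O) : F)⁻¹) = (Nat.card (dec G O) : F)⁻¹ := by
    have : (Nat.card (dec G O) : F) = algebraMap k F (Nat.card (dec G O) : k) := by simp
    rw [smul_inv'', this, smul_algebraMap]
  rw [smul_mul', h1, Finset.smul_sum]
  congr 1
  refine Fintype.sum_equiv (Equiv.mulLeft (⟨g, hg⟩ : dec G O)) _ _ fun g' => ?_
  simp [mul_smul]

/-- The average of an eigenvector is a multiple of it. -/
theorem avg_eigen {x : F} {χ : G → k}
    (hx : ∀ g ∈ dec G O, g • x = algebraMap k F (χ g) * x) :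
    ∃ c : k, avg G O x = algebraMap k F c * x := by
  have := Fintype.ofFinite (dec G O)
  refine ⟨(Nat.card (dec G O) : k)⁻¹ * ∑ g : dec G O, χ g, ?_⟩
  rw [avg_def, map_mul, map_inv₀, map_natCast, mul_assoc, map_sum, Finset.sum_mul]
  congr 1
  exact Finset.sum_congr rfl fun g _ => hx g g.2

/-- A `dec`-stable `k`-subspace is stable under averages. -/
theorem avg_mem (W : Submodule k F) (hW : ∀ g ∈ dec G O, ∀ x ∈ W, g • x ∈ W) {x : F}
    (hx : x ∈ W) : avg G O x ∈ W := by
  have := Fintype.ofFinite (dec G O)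
  rw [avg_def]
  have : (Nat.card (dec G O) : F)⁻¹ = algebraMap k F (Nat.card (dec G O) : k)⁻¹ := by simp
  rw [this, ← Algebra.smul_def]
  exact W.smul_mem _ (W.sum_mem fun g _ => hW g g.2 x hx)

end avg

/-- The powers of the maximal ideal as subspaces of `F`. -/
def pw (V : ValuationSubring F) (O : Subalgebra k F) (hO : Dom V O) (M : ℕ) : Submodule k F where
  carrier := {x | ∃ a ∈ mx V O hO ^ M, (a : F) = x}
  add_mem' := by
    rintro _ _ ⟨a, ha, rfl⟩ ⟨b, hb, rfl⟩
    exact ⟨a + b, Ideal.add_mem _ ha hb, rfl⟩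
  zero_mem' := ⟨0, Ideal.zero_mem _, rfl⟩
  smul_mem' := by
    rintro c _ ⟨a, ha, rfl⟩
    refine ⟨c • a, ?_, rfl⟩
    rw [Algebra.smul_def]
    exact Ideal.mul_mem_left _ _ ha

theorem pw_mul {hO : Dom V O} {M : ℕ} {c x : F} (hc : c ∈ O) (hx : x ∈ pw V O hO M) :
    c * x ∈ pw V O hO M := by
  obtain ⟨a, ha, rfl⟩ := hx
  exact ⟨⟨c, hc⟩ * a, Ideal.mul_mem_left _ _ ha, rfl⟩

theorem pw_mul_lt {hO : Dom V O} {M : ℕ} {c x : F} (hc : c ∈ O) (hc1 : V.valuation c < 1)
    (hx : x ∈ pw V O hO M) : c * x ∈ pw V O hO (M + 1) := by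
  obtain ⟨a, ha, rfl⟩ := hx
  refine ⟨⟨c, hc⟩ * a, ?_, rfl⟩
  rw [pow_succ']
  exact Ideal.mul_mem_mul (mem_mx.2 hc1) ha

/-- The span of the nonempty products of elements of `E`. -/
def Sp (k : Type u) {F : Type u} [Field k] [Field F] [Algebra k F] (E : Set F) : Submodule k F :=
  Submodule.span k {w | ∃ e ∈ E, ∃ w' ∈ Submonoid.closure E, w = e * w'}

theorem Sp_mul {E : Set F} {s w : F} (hs : s ∈ Sp k E) (hw : w ∈ Submonoid.closure E) :
    s * w ∈ Sp k E := by
  unfold Sp at hs
  induction hs using Submodule.span_induction with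
  | mem s hs =>
    obtain ⟨e, he, w', hw', rfl⟩ := hs
    exact Submodule.subset_span ⟨e, he, w' * w, mul_mem hw' hw, by ring⟩
  | zero => rw [zero_mul]; exact Submodule.zero_mem _
  | add s t _ _ hs ht => rw [add_mul]; exact Submodule.add_mem _ hs ht
  | smul c s _ hs => rw [smul_mul_assoc]; exact Submodule.smul_mem _ _ hs

/-- Expansion of the elements of the maximal ideal. -/
theorem expand (hO : Dom V O) (hres : ∀ a ∈ O, ∃ c : k, V.valuation (a - algebraMap k F c) < 1)
    {E : Set F} (hE : ∀ a ∈ E, a ∈ O ∧ V.valuation a < 1)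
    (hgen : ∀ x ∈ O, V.valuation x < 1 → x ∈ Submodule.span O E) (M : ℕ) :
    ∀ x ∈ O, V.valuation x < 1 → x ∈ Sp k E ⊔ pw V O hO M := by
  induction M with
  | zero =>
    intro x hx _
    refine Submodule.mem_sup_right ⟨⟨x, hx⟩, ?_, rfl⟩
    rw [pow_zero, Ideal.one_eq_top]
    trivial
  | succ M ih =>
    have hclO : ∀ w ∈ Submonoid.closure E, w ∈ O := by
      intro w hw
      have : Submonoid.closure E ≤ O.toSubmonoid :=
        Submonoid.closure_le.2 fun a ha => (hE a ha).1
      exact this hw
    have key : ∀ c ∈ O, ∀ s ∈ Sp k E, c * s ∈ Sp k E ⊔ pw V O hO (M + 1) := by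
      intro c hc s hs
      obtain ⟨c0, hc0⟩ := hres c hc
      have e0 : c * s = (c - algebraMap k F c0) * s + c0 • s := by
        rw [Algebra.smul_def]; ring
      rw [e0]
      refine Submodule.add_mem _ ?_ (Submodule.smul_mem _ _ (Submodule.mem_sup_left hs))
      have hν := O.sub_mem hc (O.algebraMap_mem c0)
      clear e0
      generalize c - algebraMap k F c0 = ν at hν hc0
      unfold Sp at hs
      induction hs using Submodule.span_induction with
      | mem s hs1 =>
        obtain ⟨e, he, w', hw', rfl⟩ := hs1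
        obtain ⟨s', hs', r', hr', hsr⟩ := Submodule.mem_sup.1 (ih ν hν hc0)
        rw [← hsr, add_mul]
        refine Submodule.add_mem _ (Submodule.mem_sup_left (Sp_mul hs'
          (mul_mem (Submonoid.subset_closure he) hw'))) (Submodule.mem_sup_right ?_)
        have : r' * (e * w') = w' * (e * r') := by ring
        rw [this]
        exact pw_mul (hclO w' hw') (pw_mul_lt (hE e he).1 (hE e he).2 hr')
      | zero => rw [mul_zero]; exact Submodule.zero_mem _
      | add s t _ _ hs2 ht2 =>
        rw [mul_add]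
        exact Submodule.add_mem _ hs2 ht2
      | smul d s _ hs2 =>
        rw [mul_smul_comm]
        exact Submodule.smul_mem _ _ hs2
    have key2 : ∀ y ∈ Submodule.span O E, y ∈ Sp k E ⊔ pw V O hO (M + 1) := by
      intro y hy
      induction hy using Submodule.span_induction with
      | mem e he =>
        exact Submodule.mem_sup_left (Submodule.subset_span ⟨e, he, 1, one_mem _, by ring⟩)
      | zero => exact Submodule.zero_mem _
      | add y z _ _ ihy ihz => exact Submodule.add_mem _ ihy ihz
      | smul c y _ ihy =>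
        obtain ⟨s, hs, r, hr, rfl⟩ := Submodule.mem_sup.1 ihy
        have : c • (s + r) = (c : F) * s + (c : F) * r := by
          rw [Algebra.smul_def, ← mul_add]; rfl
        rw [this]
        exact Submodule.add_mem _ (key _ c.2 s hs) (Submodule.mem_sup_right (pw_mul c.2 hr))
    exact fun x hx hx1 => key2 x (hgen x hx hx1)

/-- Eigenvectors of the decomposition group. -/
def Eig (G : Type v) [Group G] [MulSemiringAction G F] (O : Subalgebra k F) (x : F) : Prop :=
  ∃ χ : G → k, ∀ g ∈ dec G O, g • x = algebraMap k F (χ g) * x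

omit [SMulCommClass G k F] in
theorem Eig.mul {x y : F} (hx : Eig G O x) (hy : Eig G O y) : Eig G O (x * y) := by
  obtain ⟨χ, hχ⟩ := hx
  obtain ⟨ψ, hψ⟩ := hy
  refine ⟨fun g => χ g * ψ g, fun g hg => ?_⟩
  rw [smul_mul', hχ g hg, hψ g hg, map_mul]
  ring

omit [SMulCommClass G k F] in
theorem Eig.of_fixed {x : F} (hx : ∀ g ∈ dec G O, g • x = x) : Eig G O x :=
  ⟨fun _ => 1, fun g hg => by rw [hx g hg, map_one, one_mul]⟩

omit [SMulCommClass G k F] in
theorem Eig.closure {E : Set F} (hE : ∀ a ∈ E, Eig G O a) {w : F}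
    (hw : w ∈ Submonoid.closure E) : Eig G O w := by
  induction hw using Submonoid.closure_induction with
  | mem x hx => exact hE x hx
  | one => exact Eig.of_fixed fun g _ => smul_one g
  | mul x y _ _ hx hy => exact hx.mul hy

/-- A product of elements of `A ∪ B` is a product of elements of `A` or divisible by an element of
`B`. -/
theorem closure_union {A B : Set F} {w : F} (hw : w ∈ Submonoid.closure (A ∪ B)) :
    w ∈ Submonoid.closure A ∨ ∃ t ∈ B, ∃ w' ∈ Submonoid.closure (A ∪ B), w = t * w' := by
  induction hw using Submonoid.closure_induction with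
  | mem x hx =>
    rcases hx with hx | hx
    · exact Or.inl (Submonoid.subset_closure hx)
    · exact Or.inr ⟨x, hx, 1, one_mem _, by ring⟩
  | one => exact Or.inl (one_mem _)
  | mul x y hx hy ihx ihy =>
    rcases ihx with h | ⟨t, ht, w', hw', rfl⟩
    · rcases ihy with h' | ⟨t, ht, w', hw', rfl⟩
      · exact Or.inl (mul_mem h h')
      · exact Or.inr ⟨t, ht, x * w', mul_mem hx hw', by ring⟩
    · exact Or.inr ⟨t, ht, w' * y, mul_mem hw' hy, by ring⟩

end Pool.Agent.TGh89
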