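import Pool.Agent.Lib.TG_h89.Gen

/-!
# Generation of the maximal ideal of the ring of invariants: the theorem
-/

set_option autoImplicit false

namespace Pool.Agent.TGh89

open Pool.Agent.LU2 Pool.Agent.TGE

universe u v

variable {k F : Type u} [Field k] [Field F] [Algebra k F]
variable {G : Type v} [Group G] [MulSemiringAction G F] [SMulCommClass G k F]
variable {V : ValuationSubring F} {O : Subalgebra k F}

/-- Products of two elements of the maximal ideal. -/
def sq (V : ValuationSubring F) (O : Subalgebra k F) : Set F :=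
  {x | ∃ a ∈ O, ∃ b ∈ O, V.valuation a < 1 ∧ V.valuation b < 1 ∧ x = a * b}

theorem pw_smul {hO : Dom V O} {M : ℕ} {g : G} (hg : g ∈ dec G O) {x : F}
    (hx : x ∈ pw V O hO M) : g • x ∈ pw V O hO M := by
  induction M generalizing x with
  | zero =>
    obtain ⟨a, -, rfl⟩ := hx
    exact ⟨⟨g • (a : F), smul_dec hg a.2⟩, by rw [pow_zero, Ideal.one_eq_top]; trivial, rfl⟩
  | succ M ih =>
    obtain ⟨a, ha, rfl⟩ := hx
    rw [pow_succ'] at ha
    induction ha using Submodule.mul_induction_on' with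
    | mem_mul_mem b hb c hc =>
      have : g • ((b * c : O) : F) = g • (b : F) * g • (c : F) := by
        rw [MulMemClass.coe_mul, smul_mul']
      change g • ((b * c : O) : F) ∈ _
      rw [this]
      exact pw_mul_lt (smul_dec hg b.2) (val_smul_lt hO hg b.2 (mem_mx.1 hb)) (ih ⟨c, hc, rfl⟩)
    | add b _ c _ hb hc =>
      rw [Subalgebra.coe_add, smul_add]
      exact Submodule.add_mem _ hb hc

/-- Good elements, up to units. -/
theorem Good.mul_unit (hO : Dom V O) {m u : F} (h : Good G V O m) (hu : u ∈ O)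
    (h1 : V.valuation u = 1) : Good G V O (m * u) := h.mul (Good.unit hu h1)

/-- The monomials: products of elements of `E` times units. -/
def Mon (V : ValuationSubring F) (O : Subalgebra k F) (E : Set F) (y : F) : Prop :=
  ∃ w ∈ Submonoid.closure E, ∃ u ∈ O, V.valuation u = 1 ∧ y = w * u

theorem Mon.mul {E : Set F} {x y : F} (hx : Mon V O E x) (hy : Mon V O E y) :
    Mon V O E (x * y) := by
  obtain ⟨w, hw, u, hu, hu1, rfl⟩ := hx
  obtain ⟨w', hw', u', hu', hu1', rfl⟩ := hy
  exact ⟨w * w', mul_mem hw hw', u * u', O.mul_mem hu hu', by rw [map_mul, hu1, hu1', one_mul],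
    by ring⟩

theorem Mon.one {E : Set F} : Mon V O E 1 :=
  ⟨1, one_mem _, 1, O.one_mem, map_one _, by ring⟩

theorem Mon.mul_unit {E : Set F} {x u : F} (hx : Mon V O E x) (hu : u ∈ O)
    (h1 : V.valuation u = 1) : Mon V O E (x * u) :=
  hx.mul ⟨1, one_mem _, u, hu, h1, by ring⟩

theorem Mon.of_closure {E E' : Set F} (h : ∀ a ∈ E', Mon V O E a) {w : F}
    (hw : w ∈ Submonoid.closure E') : Mon V O E w := by
  induction hw using Submonoid.closure_induction with
  | mem x hx => exact h x hx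
  | one => exact Mon.one
  | mul x y _ _ hx hy => exact hx.mul hy

theorem Mon.ne {E : Set F} (hE : ∀ a ∈ E, a ≠ 0) {x : F} (hx : Mon V O E x) : x ≠ 0 := by
  obtain ⟨w, hw, u, hu, hu1, rfl⟩ := hx
  refine mul_ne_zero ?_ (by rintro rfl; simp at hu1)
  induction hw using Submonoid.closure_induction with
  | mem x hx => exact hE x hx
  | one => exact one_ne_zero
  | mul x y _ _ hx hy => exact mul_ne_zero hx hy

omit [SMulCommClass G k F] in
theorem Mon.good {E : Set F} (hE : ∀ a ∈ E, Good G V O a) {x : F}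
    (hx : Mon V O E x) : Good G V O x := by
  obtain ⟨w, hw, u, hu, hu1, rfl⟩ := hx
  refine Good.mul ?_ (Good.unit hu hu1)
  induction hw using Submonoid.closure_induction with
  | mem x hx => exact hE x hx
  | one => exact Good.one
  | mul x y _ _ hx hy => exact hx.mul hy

/-- Generation of the maximal ideal of the ring of invariants. -/
theorem gen_fixed [Fintype G] (hs : Semi G V O) (hc : (Nat.card (dec G O) : k) ≠ 0)
    (hrc : RootCl O) (Em Et : Finset F)
    (hEm : ∀ m ∈ Em, m ∈ O ∧ V.valuation m < 1 ∧ m ≠ 0 ∧ Good G V O m)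
    (hEt : ∀ t ∈ Et, t ∈ O ∧ V.valuation t < 1 ∧ ∀ g ∈ dec G O, g • t = t)
    (hgen : ∀ x ∈ O, V.valuation x < 1 → x ∈ Submodule.span O ((Em : Set F) ∪ (Et : Set F))) :
    ∃ τ : F → F, (∀ t ∈ Et, τ t ∈ fixO G O ∧ V.valuation (τ t) < 1 ∧
      τ t - t ∈ Submodule.span O (sq V O)) ∧
      ∀ x ∈ fixO G O, V.valuation x < 1 → x ∈ Submodule.span (fixO G O)
        ({y | y ∈ fixO G O ∧ V.valuation y < 1 ∧ Mon V O (Em : Set F) y} ∪ τ '' (Et : Set F)) := by
  classical
  have hO := hs.dom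
  -- invariant parameters
  have h1 : ∀ t : F, ∃ y : F, t ∈ Et → (y ∈ fixO G O ∧ V.valuation y < 1 ∧
      y - t ∈ Submodule.span O (sq V O)) := by
    intro t
    by_cases ht : t ∈ Et
    · obtain ⟨h1, h2, h3⟩ := hEt t ht
      obtain ⟨y, hy, hy1, hy2⟩ := approx hs hc h1 h2 h3
      exact ⟨y, fun _ => ⟨hy, hy1, hy2⟩⟩
    · exact ⟨0, fun h => absurd h ht⟩
  choose τ hτ using h1
  refine ⟨τ, hτ, ?_⟩
  -- eigen representatives
  have h2 : ∀ m : F, ∃ m' : F, m ∈ Em → (m' / m ∈ O ∧ V.valuation (m' / m - 1) < 1 ∧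
      Eig G O m') := by
    intro m
    by_cases hm : m ∈ Em
    · obtain ⟨_, _, h3, h4⟩ := hEm m hm
      obtain ⟨m', a, b, χ, c⟩ := exists_eigen hs hc hrc h3 h4
      exact ⟨m', fun _ => ⟨a, b, χ, fun g hg => (c g hg).2⟩⟩
    · exact ⟨0, fun h => absurd h hm⟩
  choose ε hε using h2
  have hεu : ∀ m ∈ Em, V.valuation (ε m / m) = 1 := fun m hm => val_one_of_sub V (hε m hm).2.1
  have hεeq : ∀ m ∈ Em, ε m = m * (ε m / m) := fun m hm => by
    rw [mul_div_cancel₀ _ (hEm m hm).2.2.1]
  have hεO : ∀ m ∈ Em, ε m ∈ O := fun m hm => by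
    rw [hεeq m hm]; exact O.mul_mem (hEm m hm).1 (hε m hm).1
  have hεv : ∀ m ∈ Em, V.valuation (ε m) < 1 := fun m hm => by
    rw [hεeq m hm, map_mul, hεu m hm, mul_one]; exact (hEm m hm).2.1
  set A : Set F := ε '' (Em : Set F) with hA
  set B : Set F := τ '' (Et : Set F) with hB
  have hAB : ∀ a ∈ A ∪ B, a ∈ O ∧ V.valuation a < 1 := by
    rintro a (⟨m, hm, rfl⟩ | ⟨t, ht, rfl⟩)
    · exact ⟨hεO m hm, hεv m hm⟩
    · exact ⟨(hτ t ht).1.1, (hτ t ht).2.1⟩
  set 𝔪 := mx V O hO with h𝔪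
  -- the maximal ideal is finitely generated
  have hEmt : ∀ a ∈ (Em : Set F) ∪ (Et : Set F), a ∈ O := by
    rintro a (h | h)
    · exact (hEm a h).1
    · exact (hEt a h).1
  have hfg : 𝔪.FG := by
    have e1 : 𝔪 = Ideal.span {a : O | (a : F) ∈ (Em : Set F) ∪ (Et : Set F)} := by
      apply le_antisymm
      · intro x hx
        exact (mem_span_iff hEmt).1 (hgen x x.2 (mem_mx.1 hx))
      · rw [Ideal.span_le]
        rintro a (ha | ha)
        · exact mem_mx.2 (hEm _ ha).2.1
        · exact mem_mx.2 (hEt _ ha).2.1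
    rw [e1]
    have hfin : {a : O | (a : F) ∈ (Em : Set F) ∪ (Et : Set F)}.Finite :=
      Set.Finite.preimage Subtype.val_injective.injOn (Em.finite_toSet.union Et.finite_toSet)
    exact ⟨hfin.toFinset, by rw [hfin.coe_toFinset]⟩
  have hABO : ∀ a ∈ A ∪ B, a ∈ O := fun a ha => (hAB a ha).1
  have hsq : ∀ x : O, (x : F) ∈ Submodule.span O (sq V O) → x ∈ 𝔪 • 𝔪 := by
    intro x hx
    have hsqO : ∀ a ∈ sq V O, a ∈ O := by
      rintro a ⟨b, hb, c, hc, -, -, rfl⟩; exact O.mul_mem hb hc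
    have h3 := (mem_span_iff hsqO).1 hx
    refine (Ideal.span_le.2 ?_) h3
    rintro a ⟨b, hb, c, hc, hb1, hc1, hbc⟩
    have : a = (⟨b, hb⟩ : O) * ⟨c, hc⟩ := Subtype.ext hbc
    rw [this]
    exact Ideal.mul_mem_mul (mem_mx.2 hb1) (mem_mx.2 hc1)
  have hgen1 : 𝔪 ≤ Ideal.span {a : O | (a : F) ∈ A ∪ B} := by
    refine Submodule.le_of_le_smul_of_le_jacobson_bot hfg (mx_le_jac hO) ?_
    intro x hx
    have h3 := (mem_span_iff hEmt).1 (hgen x x.2 (mem_mx.1 hx))
    refine (Ideal.span_le.2 ?_) h3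
    rintro a (ha | ha)
    · refine Submodule.mem_sup_left ?_
      have h4 : a = (⟨(ε (a : F) / a)⁻¹, hO.inv _ (hε _ ha).1 (hεu _ ha)⟩ : O) *
          ⟨ε (a : F), hεO _ ha⟩ := by
        apply Subtype.ext
        have ha0 := (hEm _ ha).2.2.1
        have hε0 : ε (a : F) ≠ 0 := by
          intro h0
          have := hεu _ ha
          rw [h0, zero_div, map_zero] at this
          exact zero_ne_one this
        change (a : F) = (ε (a : F) / a)⁻¹ * ε (a : F)
        field_simp
      rw [h4]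
      exact Ideal.mul_mem_left _ _ (Ideal.subset_span (Or.inl ⟨_, ha, rfl⟩))
    · have h4 : a = ⟨τ (a : F), (hτ _ ha).1.1⟩ - (⟨τ (a : F), (hτ _ ha).1.1⟩ - a) := by ring
      rw [h4]
      refine Ideal.sub_mem _ (Submodule.mem_sup_left (Ideal.subset_span (Or.inr ⟨_, ha, rfl⟩)))
        (Submodule.mem_sup_right (hsq _ (hτ _ ha).2.2))
  set Y : Set F := {y | y ∈ fixO G O ∧ V.valuation y < 1 ∧ Mon V O (Em : Set F) y} with hY
  have hYB : ∀ a ∈ Y ∪ B, a ∈ O := by
    rintro a (ha | ⟨t, ht, rfl⟩)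
    · exact ha.1.1
    · exact (hτ t ht).1.1
  set J : Ideal O := Ideal.span {a : O | (a : F) ∈ Y ∪ B} with hJ
  have hrad : 𝔪 ≤ J.radical := by
    refine hgen1.trans (Ideal.span_le.2 ?_)
    rintro a (⟨m, hm, hma⟩ | ha)
    · obtain ⟨hmO, hm1, hm0, q, hq, h, hh, u, hu, hu1, e⟩ := hEm m hm
      have hu0 : u ≠ 0 := by rintro rfl; simp at hu1
      refine ⟨q, ?_⟩
      have hhm : h = m ^ q * u⁻¹ := by rw [e]; field_simp
      have hhO : h ∈ O := by rw [hhm]; exact O.mul_mem (O.pow_mem hmO _) (hO.inv u hu hu1)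
      have hhY : h ∈ Y := by
        refine ⟨⟨hhO, hh⟩, ?_, m ^ q, pow_mem (Submonoid.subset_closure hm) q, u⁻¹,
          hO.inv u hu hu1, by rw [map_inv₀, hu1, inv_one], hhm⟩
        rw [hhm, map_mul, map_inv₀, hu1, inv_one, mul_one, map_pow]
        exact pow_lt_one₀ zero_le hm1 hq.ne'
      have h5 : a ^ q = ((⟨u, hu⟩ : O) * ⟨ε m / m, (hε m hm).1⟩ ^ q) * ⟨h, hhO⟩ := by
        apply Subtype.ext
        change (a : F) ^ q = u * (ε m / m) ^ q * h
        rw [← hma, hεeq m hm, mul_pow, e]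
        rw [← hεeq m hm]
        ring
      rw [h5]
      exact Ideal.mul_mem_left _ _ (Ideal.subset_span (Or.inl hhY))
    · exact ⟨1, by rw [pow_one]; exact Ideal.subset_span (Or.inr ha)⟩
  obtain ⟨M, hM⟩ := Ideal.exists_pow_le_of_le_radical_of_fg hrad hfg
  -- averages of the products
  have hgood : ∀ w, Mon V O (Em : Set F) w → V.valuation w < 1 → w ∈ O →
      (∀ g ∈ dec G O, g • w = w) → w ∈ Submodule.span O (Y ∪ B) := by
    intro w hw hw1 hwO hfix
    have hw0 := hw.ne fun a ha => (hEm a ha).2.2.1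
    obtain ⟨y, hy, hyO, hy1⟩ := descend hs hc hrc hw0 (hw.good fun a ha => (hEm a ha).2.2.2)
      fun g hg => by rw [hfix g hg, div_self hw0, sub_self, map_zero]; exact zero_lt_one
    have hyu := val_one_of_sub V hy1
    have hy0 : y ≠ 0 := by rintro rfl; simp at hyu
    have hyeq : y = w * (y / w) := by rw [mul_div_cancel₀ _ hw0]
    have hyY : y ∈ Y := by
      refine ⟨⟨?_, hy⟩, ?_, ?_⟩
      · rw [hyeq]; exact O.mul_mem hwO hyO
      · rw [hyeq, map_mul, hyu, mul_one]; exact hw1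
      · rw [hyeq]; exact hw.mul_unit hyO hyu
    have hwy : w = (⟨(y / w)⁻¹, hO.inv _ hyO hyu⟩ : O) • y := by
      rw [Algebra.smul_def]
      change w = (y / w)⁻¹ * y
      field_simp
    rw [hwy]
    exact Submodule.smul_mem _ _ (Submodule.subset_span (Or.inl hyY))
  have hEig : ∀ a ∈ A ∪ B, Eig G O a := by
    rintro a (⟨m, hm, rfl⟩ | ⟨t, ht, rfl⟩)
    · exact (hε m hm).2.2
    · exact Eig.of_fixed fun g _ => (hτ t ht).1.2 g
  have hclO : ∀ w ∈ Submonoid.closure (A ∪ B), w ∈ O := by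
    intro w hw
    have : Submonoid.closure (A ∪ B) ≤ O.toSubmonoid := Submonoid.closure_le.2 hABO
    exact this hw
  have hMonA : ∀ a ∈ A, Mon V O (Em : Set F) a := by
    rintro a ⟨m, hm, rfl⟩
    rw [hεeq m hm]
    exact ⟨m, Submonoid.subset_closure hm, _, (hε m hm).1, hεu m hm, rfl⟩
  have havg : ∀ s ∈ Sp k (A ∪ B), avg G O s ∈ (Submodule.span O (Y ∪ B)) := by
    intro s hs'
    unfold Sp at hs'
    induction hs' using Submodule.span_induction with
    | mem w hw =>
      obtain ⟨e, he, w', hw', hww⟩ := hw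
      have hwc : w ∈ Submonoid.closure (A ∪ B) := by
        rw [hww]; exact mul_mem (Submonoid.subset_closure he) hw'
      have hw1 : V.valuation w < 1 := by
        rw [hww, map_mul]
        exact (mul_le_of_le_one_right zero_le (val_le hO (hclO w' hw'))).trans_lt (hAB e he).2
      obtain ⟨χ, hχ⟩ := Eig.closure hEig hwc
      obtain ⟨c, hcw⟩ := avg_eigen hχ
      rcases eq_or_ne c 0 with rfl | hc0
      · rw [hcw, map_zero, zero_mul]; exact Submodule.zero_mem _
      · have hfix : ∀ g ∈ dec G O, g • w = w := by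
          intro g hg
          have h6 := smul_avg (O := O) w hg
          rw [hcw, smul_mul', smul_algebraMap] at h6
          exact mul_left_cancel₀ (by simpa using hc0) h6
        have hmem : w ∈ Submodule.span O (Y ∪ B) := by
          rcases closure_union hwc with h | ⟨t, ht, w'', hw'', rfl⟩
          · exact hgood w (Mon.of_closure hMonA h) hw1 (hclO w hwc) hfix
          · have : t * w'' = (⟨w'', hclO w'' hw''⟩ : O) • t := by
              rw [Algebra.smul_def, mul_comm]; rfl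
            rw [this]
            exact Submodule.smul_mem _ _ (Submodule.subset_span (Or.inr ht))
        rw [hcw]
        have : algebraMap k F c * w = (algebraMap k O c) • w := by
          rw [Algebra.smul_def]; rfl
        rw [this]
        exact Submodule.smul_mem _ _ hmem
    | zero => rw [avg_zero]; exact Submodule.zero_mem _
    | add s t _ _ hs1 ht1 => rw [avg_add]; exact Submodule.add_mem _ hs1 ht1
    | smul c s _ hs1 =>
      rw [Algebra.smul_def, avg_smul]
      have : algebraMap k F c * avg G O s = (algebraMap k O c) • avg G O s := by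
        rw [Algebra.smul_def (algebraMap k O c)]; rfl
      rw [this]
      exact Submodule.smul_mem _ _ hs1
  intro x hx hx1
  refine contract hs hc (fun a ha g => ?_) hx.2 ?_
  · rcases ha with ha | ⟨t, ht, rfl⟩
    · exact ha.1.2 g
    · exact (hτ t ht).1.2 g
  have hgenAB : ∀ x ∈ O, V.valuation x < 1 → x ∈ Submodule.span O (A ∪ B) := by
    intro x hx hx1
    exact (mem_span_iff (x := ⟨x, hx⟩) hABO).2 (hgen1 (mem_mx.2 hx1))
  obtain ⟨s, hs', r, hr, hsr⟩ := Submodule.mem_sup.1
    (expand hO hs.res hAB hgenAB M x hx.1 hx1)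
  have h7 : x = avg G O s + avg G O r := by
    rw [← avg_add, hsr, avg_fixed hO hc fun g _ => hx.2 g]
  rw [h7]
  refine Submodule.add_mem _ (havg s hs') ?_
  obtain ⟨a, ha, har⟩ := avg_mem (G := G) (O := O) (pw V O hO M)
    (fun g hg x hx => pw_smul hg hx) hr
  rw [← har]
  exact (mem_span_iff hYB).2 (hM ha)

end Pool.Agent.TGh89
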